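import Pool.Agent.N813.PC.Main

/-!
# Periodic smooth closed curves of `Ω`-stable diffeomorphisms

`V n = ℝⁿ`, `DiffM n N r = Diff^r(N)` with its `C^r` topology (`Pool/Agent/H718R2/G0.lean`),
`OmegaStable`, `Omega F = Ω(F)`, `IsHomPerInf`: `Pool/Agent/TH80/OMS/Defs.lean`; `Per F`: the set of the
periodic points (`Pool/Agent/TH80/OMS/SymDefs.lean`); `Rec F`: the set of the recurrent points
(`Pool/Agent/Y504/CO/Stm5.lean`); `IsHyperbolicPer`: hyperbolic periodic points
(`Pool/Agent/Y504/CO/Rob.lean`); `FiniteNoCycle F`: `Ω(F)` is finite and there are no cycles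
(`Pool/Agent/TH80/OMS/CycDefs.lean`); `IsFlow`: a smooth flow (`Pool/Agent/TH290/CL/Flow.lean`).

In `Pool/Agent/N813/PC/Defs.lean`:
* `PerCurve n N F z ψ m g`: the orbit `C` of `z` under the smooth flow `ψ` is a closed curve
  (`ψ_t z = z` if and only if `t` is an integer), `F^m(C) ⊆ C`, in the form `F^m (ψ_t z) = ψ_(g(t)) z`
  with a continuous function `g`, and `C` does not meet `F(C), ..., F^(m-1)(C)`. Nothing is assumed on
  the dynamics of `F^m` on `C`, nor on `F` outside of these curves. (Every smoothly embedded closed curve
  is a closed orbit of a smooth flow.)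
* `MorseSmaleOn F z ψ M`: `F^M` has at least one and only finitely many fixed points on `C`; for every
  `y ∈ C` the points `F^(Mj) y` converge to one of them; each of them either attracts a neighbourhood in
  `C`, or attracts no other point of a neighbourhood in `C`; every point of `C` which is recurrent for
  `F` is one of them;
* `Wild n N F`: the recurrent points of `F` which are neither periodic, nor on a periodic smooth closed
  curve (`PerCurve`), nor on a homogeneous periodic submanifold of positive dimension.
-/

set_option autoImplicit false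

open scoped Manifold ContDiff Topology
open Filter Set Metric

universe u v

namespace Pool.Agent.Results.MP_28932f_an.PeriodicCurves

open Pool.Agent.H718R2.G Pool.Agent.TH80.OMS Pool.Agent.Y504.CO Pool.Agent.N813.PC

/-- Let `N` be a closed manifold, `1 ≤ r ≤ ∞` (for `r = ∞` this is the setting of the problem), and let
`F ∈ Diff^r(N)` be `Ω`-stable.
1. On every periodic smooth closed curve `C` of `F` (with `F^m(C) = C` and `C` disjoint from `F(C), ...,
   F^(m-1)(C)`; the dynamics on `C` is arbitrary) some iterate of `F` is topologically Morse–Smale: there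
   are periodic points on `C`, finitely many, alternately attracting and repelling in `C`, each point of
   `C` is asymptotic to one of them, and there are no other recurrent points on `C`.
2. Pairwise disjoint such curves are at most countable in number.
3. If at most countably many recurrent points of `F` are wild (neither periodic, nor on such a curve, nor
   on a homogeneous periodic submanifold), then `Ω(F)` is finite and consists of hyperbolic periodic
   points (Axiom A), and there are no cycles. -/
theorem result {n : ℕ} {N : Type u} [TopologicalSpace N] [T2Space N] [CompactSpace N]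
    [ChartedSpace (V n) N] [IsManifold (𝓡 n) ∞ N] (r : ℕ∞) (hr : 1 ≤ r) (F : DiffM n N r)
    (hF : OmegaStable n N r F) :
    (∀ (z : N) (ψ : ℝ → N → N) (m : ℕ) (g : ℝ → ℝ), PerCurve n N F z ψ m g →
      ∃ M : ℕ, MorseSmaleOn F z ψ M) ∧
    (∀ (ι : Type v) (z : ι → N) (ψ : ι → ℝ → N → N) (m : ι → ℕ) (g : ι → ℝ → ℝ),
      (∀ i, PerCurve n N F (z i) (ψ i) (m i) (g i)) →
      (∀ i j, i ≠ j → ∀ s t, ψ i s (z i) ≠ ψ j t (z j)) → Countable ι) ∧
    ((Wild n N F).Countable → FiniteNoCycle F ∧ ∀ p ∈ Omega F, IsHyperbolicPer n F p) :=
  ⟨fun _ _ _ _ h => curve_main hr hF h, fun _ z ψ m g h hd => countable_curves hr hF z ψ m g h hd,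
    fun h => wild_main hr hF h⟩

end Pool.Agent.Results.MP_28932f_an.PeriodicCurves
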